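import Pool.Agent.H15.QF.Main

/-!
# Rationality of `L(1, A) / Ω(A)` for elliptic curves over `ℚ` over quartic and quintic fields with the groups
`A₄`, `S₄`, `A₅`, `S₅`

`A₀ / ℚ` is an elliptic curve with real period `Ωp` and imaginary period `i Ωm`, `K` is a number field with
`r₁` real and `r₂ ≥ 1` complex places, `F / ℚ` is a finite Galois extension with group `G` which contains `K`,
`H = Gal(F/K)`, `c ∈ G` is complex conjugation. `G` acts on the set `G ⧸ H` of the embeddings of `K`.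

`M` are the Frobenius traces of `A₀` (set equal to zero at the primes ramified in `F`, which changes the values at
`1` by nonzero rational factors), and `Val M Fr θ σ z` says that `L(s, A₀ ⊗ θ)` (Euler product, embedding `σ` of the
coefficients) has a meromorphic continuation which is holomorphic at `1`, with value `z` at `1`. For the
permutation character `θ = perm ℚ H` this is `L(1, A)` for the base change `A = A₀ / K`. `A.δ` are the periods of
the Artin motives (multiplicative up to the field of coefficients `E`, an algebraic extension of `ℚ`); the one of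
`K` is `i ^ r₂ Δ` with `Δ = |d_K| ^ (1/2)`.

`Known` records known theorems on twists of `A₀` over `ℚ`:
* for Dirichlet characters `χ`, `L(1, A₀ ⊗ χ)` is `δ(χ)` times `Ωp` (`χ` even) or `i Ωm` (`χ` odd), up to a factor
  in `E` (modular symbols);
* for odd representations `ρ, ρ' : G → GL₂(E)` with `det ρ det ρ' = 1`, the central value of the triple product
  `f × g × g'` of forms of weights `2, 1, 1`, `L(1, A₀ ⊗ ρ ⊗ ρ')`, is `(Ωp · i Ωm) ^ 2 δ(ρ ⊗ ρ')` up to a factor in `E`
  (modularity of odd two-dimensional Artin representations, Khare-Wintenberger; algebraicity, Harris-Kudla,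
  Ichino).
`KnownTwisted` is the same for the twisted triple products `f × As(g)` over real quadratic fields (Ichino;
modularity of totally odd representations, Pilloni-Stroh), `asai hU τ ρ` being the character of the tensor
induction of `ρ : U → GL₂(E)`, `(G : U) = 2`.

No hypothesis is made on `L`-functions over fields other than `ℚ`. The representations `ρ` in the four parts exist
if `F` is large enough, for all `K` with the group named there (Tate: projective representations of the Galois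
group of `ℚ`, and of a quadratic field, lift): the normal closure of `K` is the field of the projective
representation `ρ`.
-/

set_option autoImplicit false

namespace Pool.Agent.Results.MP_90f827_nt.QuarticAndQuinticFields

open Pool.Agent.H15.QF Pool.Agent.Y144.DL

/-- The setting: `K = F^H` has `r₁` real and `r₂ ≥ 1` complex places, and `i ^ r₂ Δ` is the period of its Artin
motive. -/
structure Setting {E G : Type} [Field E] [Algebra ℚ E] [Group G] (c : G) (M : FrobData ℚ)
    (Fr : Nat.Primes → G) (A : ArtinPeriods E G) (Ωp Ωm : ℝ) (H : Subgroup G) (r₁ r₂ : ℕ) (Δ : ℝ) :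
    Prop where
  involution : c * c = 1
  realPeriod : Ωp ≠ 0
  imaginaryPeriod : Ωm ≠ 0
  known : Known c (M.map E) Fr A Ωp Ωm
  real : Nat.card {x : G ⧸ H // c • x = x} = r₁
  degree : Nat.card (G ⧸ H) = r₁ + 2 * r₂
  notTotallyReal : r₂ ≠ 0
  discriminant : ∀ σ, A.δ (perm E H) σ = Complex.I ^ r₂ * Δ

/-- `L(s, A)`, `A = A₀ / K`, continues to a function which is holomorphic at `1`, and
`L(1, A) = q Ω(A)` with a rational number `q`, `Ω(A) = |d_K| ^ (1/2) Ωp ^ r₁ Im(Ωp conj(i Ωm)) ^ r₂`. -/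
def Rational {G : Type} [Group G] (M : FrobData ℚ) (Fr : Nat.Primes → G) (Ωp Ωm : ℝ) (H : Subgroup G)
    (r₁ r₂ : ℕ) (Δ : ℝ) : Prop :=
  ∃ q : ℚ, Val M Fr (perm ℚ H) (algebraMap ℚ ℂ)
    (q * (Δ * Ωp ^ r₁ * ((((Ωp : ℂ) * (starRingEnd ℂ) (Complex.I * Ωm)).im : ℝ) : ℂ) ^ r₂))

/-- `g` is trivial on `K` and its conjugates -/
def Triv {G : Type} [Group G] (H : Subgroup G) (g : G) : Prop := ∀ x : G ⧸ H, g • x = x

/-- (1) Quartic fields with group `A₄` which are not totally real (all `g` act as even permutations).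

(2) Quartic fields with group `S₄` which are not totally real, if `L(1, A₀ ⊗ ε) ≠ 0` for the quadratic character
`ε = sgn H` of `ℚ(√d_K)`.

(3) Quintic fields with group `A₅` which are not totally real. Here `ρ`, `ρ'` are the two conjugate icosahedral
representations, with `ρ ⊗ ρ'` trivial on the normal closure of `K`.

(4) Quintic fields with group `S₅` and exactly one real place, with `KnownTwisted`. Here `U` is the group of the
real quadratic field `ℚ(√d_K)` and `ρ` a totally odd icosahedral representation of `U` with conjugate `ρ(τ⁻¹ · τ)`;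
its determinant has trivial transfer, and its tensor induction is trivial on the normal closure of `K`. -/
theorem result {E G : Type} [Field E] [Algebra ℚ E] [Algebra.IsAlgebraic ℚ E] [Group G] [Finite G]
    {c : G} {M : FrobData ℚ} {Fr : Nat.Primes → G} {A : ArtinPeriods E G} {Ωp Ωm : ℝ} {H : Subgroup G}
    {r₁ r₂ : ℕ} {Δ : ℝ} (h : Setting c M Fr A Ωp Ωm H r₁ r₂ Δ) :
    (Nat.card (G ⧸ H) = 4 → (∀ g, sgn H g = 1) → ∀ ρ : G →* Matrix (Fin 2) (Fin 2) E,
      (∀ g, IsScal (ρ g) ↔ Triv H g) → Rational M Fr Ωp Ωm H r₁ r₂ Δ) ∧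
    (Nat.card (G ⧸ H) = 4 → ¬ Val M Fr (fun g => ((sgn H g : ℤ) : ℚ)) (algebraMap ℚ ℂ) 0 →
      ∀ ρ : G →* Matrix (Fin 2) (Fin 2) E, (∀ g, IsScal (ρ g) ↔ Triv H g) →
      Rational M Fr Ωp Ωm H r₁ r₂ Δ) ∧
    (Nat.card (G ⧸ H) = 5 → (∀ g, sgn H g = 1) → ∀ ρ ρ' : G →* Matrix (Fin 2) (Fin 2) E,
      (∀ g, IsScal (ρ g) ↔ Triv H g) → (∀ g, IsScal (ρ' g) ↔ Triv H g) →
      (∀ g, (ρ g).det * (ρ' g).det = 1) →
      (∀ g, Triv H g → ∃ z z' : E, z * z' = 1 ∧ ρ g = z • 1 ∧ ρ' g = z' • 1) →
      (∀ g, ¬ Triv H g → Triv H (g ^ 5) →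
        (ρ g).trace ^ 2 * (ρ' g).det ≠ (ρ' g).trace ^ 2 * (ρ g).det) →
      Rational M Fr Ωp Ωm H r₁ r₂ Δ) ∧
    (Nat.card (G ⧸ H) = 5 → r₂ = 2 → KnownTwisted c (M.map E) Fr A Ωp Ωm →
      ∀ (U : Subgroup G) (hU : U.index = 2) (τ : G) (ρ : U →* Matrix (Fin 2) (Fin 2) E),
      (∀ g, g ∈ U ↔ sgn H g = 1) → τ ∉ U → (∀ u : U, IsScal (ρ u) ↔ Triv H (u : G)) →
      (∀ u : U, (ρ u).det * (ρ ⟨τ⁻¹ * u * τ, conj_mem hU τ u.2⟩).det = 1) →
      (∀ g, g ∉ U → (ρ ⟨g ^ 2, sq_mem hU g⟩).det = 1) →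
      (∀ u : U, Triv H (u : G) → ∃ z z' : E, z * z' = 1 ∧ ρ u = z • 1 ∧
        ρ ⟨τ⁻¹ * u * τ, conj_mem hU τ u.2⟩ = z' • 1) →
      (∀ g, g ∉ U → Triv H (g ^ 2) → ρ ⟨g ^ 2, sq_mem hU g⟩ = 1) →
      (∀ u : U, ¬ Triv H (u : G) → Triv H ((u : G) ^ 5) →
        (ρ u).trace ^ 2 * (ρ ⟨τ⁻¹ * u * τ, conj_mem hU τ u.2⟩).det ≠
          (ρ ⟨τ⁻¹ * u * τ, conj_mem hU τ u.2⟩).trace ^ 2 * (ρ u).det) →
      Rational M Fr Ωp Ωm H r₁ r₂ Δ) :=
  ⟨fun h4 hev ρ hρ => quartic h.involution h.realPeriod h.imaginaryPeriod h.known H r₁ r₂ h.real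
      h.degree Δ h.discriminant h4 h.notTotallyReal ρ hρ (Or.inl hev),
    fun h4 hne ρ hρ => quartic h.involution h.realPeriod h.imaginaryPeriod h.known H r₁ r₂ h.real
      h.degree Δ h.discriminant h4 h.notTotallyReal ρ hρ (Or.inr hne),
    fun h5 hev ρ ρ' hρ hρ' hd hk hn => quintic_even h.involution h.realPeriod h.imaginaryPeriod h.known H
      r₁ r₂ h.real h.degree Δ h.discriminant h5 h.notTotallyReal hev ρ ρ' hρ hρ' hd hk hn,
    fun h5 h2 hT U hU τ ρ hUs hτ hρ hd hd' hk hk' hn => quintic_odd h.involution h.realPeriod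
      h.imaginaryPeriod h.known hT H r₁ r₂ h.real h.degree Δ h.discriminant h5 h2 U hU hUs τ hτ ρ hρ hd hd'
      hk hk' hn⟩

end Pool.Agent.Results.MP_90f827_nt.QuarticAndQuinticFields
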